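import Pool.Agent.H246Z.HASound

set_option autoImplicit false

open Pool.Agent.H246Z.HA

/-- `HA`, and every extension of `HA` by a set `T` of sentences, is sound and complete for its
locally `PA` Kripke models: a sentence `φ` is intuitionistically derivable from `HA + T` if and
only if it is forced in every locally `PA` Kripke model of `HA + T`. The case `T = ∅` is the
question. -/
theorem Pool.Agent.Results.MP_403d16_lc.ACompleteLocallyPA.result
    (T : Set Fm) (hT : ∀ A ∈ T, A.IsSentence) (φ : Fm) (hφ : φ.IsSentence) :
    Der ({A | Ax A} ∪ T) φ ↔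
      ∀ (K : Type) [PartialOrder K] (U : Type) (𝒦 : Kripke K U),
        𝒦.ForcesHA → (∀ A ∈ T, 𝒦.Forces A) → (∀ k, (𝒦.M k).IsPA) → 𝒦.Forces φ :=
  complete_iff T hT φ hφ
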